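import Mathlib

/-! Shared definitions for the disproof of MP_e29078_an (Kohn Laplacian), analytic part. -/

open MeasureTheory Set Filter Topology
open scoped Real ComplexConjugate

namespace Pool.Agent.Work.MP_e29078_an

/-- `q(w) = |1 - w|^2`. -/
noncomputable def qf (w : ℂ) : ℝ := ‖1 - w‖ ^ 2

/-- `s(w) = 1 - |w|^2`. -/
noncomputable def sf (w : ℂ) : ℝ := 1 - ‖w‖ ^ 2

/-- The nonnegative root `x` of `x^2 + q x = s` (for `|w| ≤ 1`). -/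
noncomputable def rho (w : ℂ) : ℝ := (-qf w + √(qf w ^ 2 + 4 * sf w)) / 2

/-- The moment matrix `B_{kn} = ∫_{|w|<1} w^n conj(w)^k rho^2`. -/
noncomputable def Bc (k n : ℕ) : ℂ :=
  ∫ w in Metric.ball (0 : ℂ) 1, w ^ n * (conj w) ^ k * ((rho w ^ 2 : ℝ) : ℂ)

/-- The scaled kernel `K_{kn} = (k+1)(k+2)/π B_{kn}` (a real matrix). -/
noncomputable def Kr (k n : ℕ) : ℝ := ((k : ℝ) + 1) * (k + 2) / π * (Bc k n).re

/-- The symbol `kap T = ∫_0^∞ x exp(-(x^2 + T^2 x)/2) dx`. -/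
noncomputable def kap (T : ℂ) : ℂ :=
  ∫ x in Ioi (0 : ℝ), (x : ℂ) * Complex.exp (-((x : ℂ) ^ 2 + T ^ 2 * x) / 2)

/-- The limit convolution kernel. -/
noncomputable def k0 (y : ℝ) : ℝ :=
  (√(2 * π))⁻¹ * ∫ x in Ioi (0 : ℝ), √x * Real.exp (-x ^ 2 / 2 - y ^ 2 / (2 * x))

end Pool.Agent.Work.MP_e29078_an
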