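import Mathlib

/-! # Real hypersurfaces of `ℂ³` and their Kohn Laplacian on `(0,1)`-forms

`C3` is `ℂ³` with coordinates `(z_0, z_1, z_2)`. For a real function `r` with `dr ≠ 0` on
`Hyp r = {r = 0}`, the hypersurface `Hyp r` carries the CR structure induced from `ℂ³`:
`T^{0,1}` at `p` consists of the vectors `∑ v_k ∂/∂\bar z_k` with `∑ r_{\bar z_k} v_k = 0`.

* A `(0,1)`-form on the hypersurface is represented by its unique representative
  `∑ ψ_k d\bar z_k` orthogonal to `\bar∂ r`, i.e. `∑ r_{z_k} ψ_k = 0` (`IsForm`), with the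
  Euclidean inner product `∑ ψ_k conj(φ_k)`.
* A `(0,2)`-form is represented by its value `σ` on the bivector
  `r_{\bar 0} ∂_{\bar 1} ∧ ∂_{\bar 2} + r_{\bar 1} ∂_{\bar 2} ∧ ∂_{\bar 0} +
  r_{\bar 2} ∂_{\bar 0} ∧ ∂_{\bar 1}` spanning `Λ² T^{0,1}`, which has squared length `|∂r|²`;
  the Euclidean inner product of `(0,2)`-forms is `σ conj(τ) / |∂r|²`.
* `IsVol r μ` says that `μ` is the measure `δ(r) dV = dσ / |∇ r|` on the hypersurface. It is the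
  volume of the real analytic metric which is Euclidean on `T^{1,0} + T^{0,1}` and gives length
  `1 / |∇ r|` to the Euclidean unit vector of the hypersurface orthogonal to `T^{1,0} + T^{0,1}`.
-/

open MeasureTheory Set Filter Topology
open scoped Real ComplexConjugate ContDiff

namespace Pool.Agent.Work.MP_e29078_an

/-- `ℂ³`. -/
abbrev C3 : Type := ℂ × ℂ × ℂ

/-- The standard basis of `ℂ³`. -/
def bas : Fin 3 → C3 := ![(1, 0, 0), (0, 1, 0), (0, 0, 1)]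

/-- `∂f/∂z_k`. -/
noncomputable def dz (k : Fin 3) (f : C3 → ℂ) (p : C3) : ℂ :=
  (fderiv ℝ f p (bas k) - Complex.I * fderiv ℝ f p (Complex.I • bas k)) / 2

/-- `∂f/∂\bar z_k`. -/
noncomputable def dzb (k : Fin 3) (f : C3 → ℂ) (p : C3) : ℂ :=
  (fderiv ℝ f p (bas k) + Complex.I * fderiv ℝ f p (Complex.I • bas k)) / 2

/-- Smoothness near a set. -/
def SmoothNear {E : Type} [NormedAddCommGroup E] [NormedSpace ℝ E] (S : Set C3) (f : C3 → E) :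
    Prop := ∀ p ∈ S, ContDiffAt ℝ ∞ f p

section
variable (r : C3 → ℝ)

/-- `r` as a complex valued function. -/
def rc (p : C3) : ℂ := (r p : ℂ)

/-- The hypersurface `{r = 0}`. -/
def Hyp : Set C3 := {p | r p = 0}

/-- `|∂r|² = ∑ |r_{z_k}|²`. -/
noncomputable def gsq (p : C3) : ℝ := ∑ k, ‖dz k (rc r) p‖ ^ 2

/-- The Levi form `∑ r_{z_j \bar z_k} ξ_j conj(ξ_k)`. -/
noncomputable def levi (p : C3) (ξ : Fin 3 → ℂ) : ℂ :=
  ∑ j, ∑ k, dzb k (dz j (rc r)) p * ξ j * conj (ξ k)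

/-- The tangential field `r_{z_j} ∂_{z_k} - r_{z_k} ∂_{z_j}`. -/
noncomputable def Lz (j k : Fin 3) (f : C3 → ℂ) (p : C3) : ℂ :=
  dz j (rc r) p * dz k f p - dz k (rc r) p * dz j f p

/-- The tangential field `r_{\bar z_j} ∂_{\bar z_k} - r_{\bar z_k} ∂_{\bar z_j}`. -/
noncomputable def Lb (j k : Fin 3) (f : C3 → ℂ) (p : C3) : ℂ :=
  dzb j (rc r) p * dzb k f p - dzb k (rc r) p * dzb j f p

/-- `ψ` represents a `(0,1)`-form on the hypersurface. -/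
def IsForm (ψ : C3 → Fin 3 → ℂ) : Prop :=
  ∀ p ∈ Hyp r, ∑ k, dz k (rc r) p * ψ p k = 0

/-- `\bar∂_b` on functions: the component of `\bar∂ χ` orthogonal to `\bar∂ r`. -/
noncomputable def dbarb (χ : C3 → ℂ) (p : C3) (k : Fin 3) : ℂ :=
  dzb k χ p - (∑ j, dz j (rc r) p * dzb j χ p) / (gsq r p : ℂ) * dzb k (rc r) p

/-- `\bar∂_b` on `(0,1)`-forms: the value of `\bar∂ ψ` on the bivector spanning `Λ² T^{0,1}`. -/
noncomputable def dbarb2 (ψ : C3 → Fin 3 → ℂ) (p : C3) : ℂ :=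
  Lb r 1 2 (fun q => ψ q 0) p + Lb r 2 0 (fun q => ψ q 1) p + Lb r 0 1 (fun q => ψ q 2) p

/-- The formal adjoint of `\bar∂_b` on `(0,1)`-forms (see `FormalAdj`). -/
noncomputable def dbarbStar (ψ : C3 → Fin 3 → ℂ) (p : C3) : ℂ :=
  -∑ j, ∑ k, Lz r j k (fun q => dzb j (rc r) q * ψ q k / (gsq r q : ℂ)) p

/-- The formal adjoint of `\bar∂_b` on `(0,2)`-forms (see `FormalAdj`). -/
noncomputable def dbarb2Star (σ : C3 → ℂ) (p : C3) (k : Fin 3) : ℂ :=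
  -Lz r (k + 1) (k + 2) (fun q => σ q / (gsq r q : ℂ)) p

/-- The Kohn Laplacian on `(0,1)`-forms. -/
noncomputable def boxb (ψ : C3 → Fin 3 → ℂ) (p : C3) (k : Fin 3) : ℂ :=
  dbarb r (dbarbStar r ψ) p k + dbarb2Star r (dbarb2 r ψ) p k

/-- `{r = 0}` is a compact real analytic pseudoconvex hypersurface. -/
structure IsPscHyp : Prop where
  analytic : ∀ p, AnalyticAt ℝ r p
  compact : IsCompact (Hyp r)
  nonempty : (Hyp r).Nonempty
  regular : ∀ p ∈ Hyp r, fderiv ℝ r p ≠ 0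
  psc : ∀ p ∈ Hyp r, ∀ ξ : Fin 3 → ℂ, ∑ k, dz k (rc r) p * ξ k = 0 → 0 ≤ (levi r p ξ).re

/-- `{r = 0}` is strictly pseudoconvex at `p`. -/
def StrictPscAt (p : C3) : Prop :=
  ∀ ξ : Fin 3 → ℂ, ξ ≠ 0 → ∑ k, dz k (rc r) p * ξ k = 0 → 0 < (levi r p ξ).re

/-- `μ` is the measure `δ(r) dV` on `{r = 0}`. -/
structure IsVol (μ : Measure C3) : Prop where
  finite : IsFiniteMeasure μ
  supp : μ (Hyp r)ᶜ = 0
  tube : ∀ φ : C3 → ℝ, Continuous φ → HasCompactSupport φ →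
    Tendsto (fun ε : ℝ => (1 / (2 * ε)) * ∫ p in {p : C3 | |r p| < ε}, φ p) (𝓝[>] 0)
      (𝓝 (∫ p, φ p ∂μ))

/-- `dbarbStar` and `dbarb2Star` are the formal adjoints of `\bar∂_b` for the inner products
given by `μ` and the Euclidean metric on forms. -/
structure FormalAdj (μ : Measure C3) : Prop where
  adj1 : ∀ (χ : C3 → ℂ) (ψ : C3 → Fin 3 → ℂ), SmoothNear (Hyp r) χ → SmoothNear (Hyp r) ψ →
    IsForm r ψ →
    ∫ p, ∑ k, dbarb r χ p k * conj (ψ p k) ∂μ = ∫ p, χ p * conj (dbarbStar r ψ p) ∂μ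
  adj2 : ∀ (ψ : C3 → Fin 3 → ℂ) (σ : C3 → ℂ), SmoothNear (Hyp r) ψ → SmoothNear (Hyp r) σ →
    IsForm r ψ →
    ∫ p, dbarb2 r ψ p * conj (σ p) / (gsq r p : ℂ) ∂μ =
      ∫ p, ∑ k, ψ p k * conj (dbarb2Star r σ p k) ∂μ

/-- `□_b u = v` in the sense of currents. -/
def WeakBox (μ : Measure C3) (u v : C3 → Fin 3 → ℂ) : Prop :=
  ∀ ψ : C3 → Fin 3 → ℂ, SmoothNear (Hyp r) ψ → IsForm r ψ →
    ∫ p, ∑ k, u p k * conj (boxb r ψ p k) ∂μ = ∫ p, ∑ k, v p k * conj (ψ p k) ∂μ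

/-- `u` is real analytic on the hypersurface: near every point it agrees (almost everywhere)
with a real analytic map. -/
def IsAnalyticOn (μ : Measure C3) (u : C3 → Fin 3 → ℂ) : Prop :=
  ∀ p ∈ Hyp r, ∃ g : C3 → Fin 3 → ℂ, AnalyticAt ℝ g p ∧ ∃ U ∈ 𝓝 p, ∀ᵐ q ∂μ, q ∈ U → u q = g q

end

end Pool.Agent.Work.MP_e29078_an
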