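import Mathlib
import Pool.Agent.Work.MP_e29078_an.DefsA
import Pool.Agent.Work.MP_e29078_an.Geom

/-! The hypersurface `|z₁|² + |z₂|⁴ + |1-w|²|z₂|² + |w|² = 1`: definitions. -/

open MeasureTheory Set Filter Topology
open scoped Real ComplexConjugate ContDiff ENNReal

namespace Pool.Agent.Work.MP_e29078_an

/-- The defining function. -/
noncomputable def rM (p : C3) : ℝ :=
  ‖p.1‖ ^ 2 + ‖p.2.1‖ ^ 4 + ‖1 - p.2.2‖ ^ 2 * ‖p.2.1‖ ^ 2 + ‖p.2.2‖ ^ 2 - 1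

/-- `|z₁|²` on the hypersurface, as a function of `(z₂, w)`. -/
noncomputable def hM (z : ℂ × ℂ) : ℝ := sf z.2 - ‖z.1‖ ^ 4 - qf z.2 * ‖z.1‖ ^ 2

/-- The projection of the hypersurface (minus `z₁ = 0`) to `(z₂, w)`. -/
def GM : Set (ℂ × ℂ) := {z | 0 < hM z}

/-- The parametrisation by `(θ, (z₂, w))`. -/
noncomputable def PM (x : ℝ × (ℂ × ℂ)) : C3 :=
  (((√(hM x.2) : ℝ) : ℂ) * Complex.exp (x.1 * Complex.I), x.2.1, x.2.2)

/-- The measure `δ(r) dV`. -/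
noncomputable def muM : Measure C3 :=
  (1 / 2 : ℝ≥0∞) • Measure.map PM ((volume.restrict (Ioo (-π) π)).prod (volume.restrict GM))

/-- The explicit `(0,1)`-form with `\bar∂_b^* u₀ = f - F`. -/
noncomputable def u0 (F V : ℂ → ℂ) (p : C3) : Fin 3 → ℂ :=
  let t : ℝ := ‖p.2.1‖ ^ 2
  let w : ℂ := p.2.2
  ![-p.1 * (V w * (2 * t + qf w : ℝ) * conj w / (sf w : ℂ) ^ 2 +
      F w * (t * (2 * t + qf w) / ((rho w + qf w) * (rho w + t + qf w)) : ℝ)),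
    p.2.1 * (F w * (1 - (t + qf w) * rho w / sf w : ℝ) -
      V w * (-(1 - conj w) / (sf w : ℂ) + (t + qf w : ℝ) * conj w / (sf w : ℂ) ^ 2)),
    V w * (2 * t + qf w : ℝ) / (sf w : ℂ)]

/-- The function `f = (2|z₂|² + |1-w|²) Φ(w)`. -/
noncomputable def fM (Φ : ℂ → ℂ) (p : C3) : ℂ := (2 * ‖p.2.1‖ ^ 2 + qf p.2.2 : ℝ) * Φ p.2.2

end Pool.Agent.Work.MP_e29078_an
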