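import Mathlib
import Pool.Agent.Work.MP_e29078_an.Bd.B04

/-! The form `u`: it solves `□_b u = \bar∂_b f` weakly and is not real analytic. -/

open MeasureTheory Set Filter Topology
open scoped Real ComplexConjugate ContDiff ENNReal

namespace Pool.Agent.Work.MP_e29078_an

/-- Existence of the data of the construction. -/
lemma exists_u : ∃ (g : ℕ → ℂ) (Φ : ℂ → ℂ) (R : ℝ) (u : C3 → Fin 3 → ℂ), 1 < R ∧
    DifferentiableOn ℂ Φ (Metric.ball 0 R) ∧ Summable (fun n => ‖g n‖) ∧
    (∀ δ > 0, ∀ C : ℝ, ¬ ∀ n : ℕ, ‖g n‖ ≤ C * Real.exp (-δ * n)) ∧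
    (∀ k, MemLp (fun p => u p k) 2 muM) ∧ IsForm rM u ∧
    (∀ χ : C3 → ℂ, SmoothNear (Hyp rM) χ →
      ∫ p, ∑ k, u p k * conj (dbarb rM χ p k) ∂muM =
        ∫ p, (fM Φ p - Fg g p.2.2) * conj (χ p) ∂muM) ∧
    (∀ η : C3 → Fin 3 → ℂ, SmoothNear (Hyp rM) η → IsForm rM η →
      (∀ χ : C3 → ℂ, SmoothNear (Hyp rM) χ →
        ∫ p, ∑ k, dbarb rM χ p k * conj (η p k) ∂muM = 0) →
      ∫ p, ∑ k, u p k * conj (η p k) ∂muM = 0) := by
  obtain ⟨g, Φ, R, hR, hΦ, hg, hnd, hmom⟩ := exists_FPhi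
  have hΦc : ContinuousOn Φ (Metric.closedBall 0 1) :=
    hΦ.continuousOn.mono (Metric.closedBall_subset_ball hR)
  obtain ⟨V, A, hFA, hΦA, hVc, hVb, hVw⟩ := exists_V hg hΦc hmom
  have hmem := u0_memLp (Fg g) V A (Fg_meas hg) hFA hVc hVb
  obtain ⟨u, hu, huf, hu1, hu2⟩ := exists_form (u0 (Fg g) V) hmem
  refine ⟨g, Φ, R, u, hR, hΦ, hg, hnd, hu, huf, fun χ hχ => ?_, hu2⟩
  rw [hu1 χ hχ, weak_one (Fg_meas hg) hFA (cut_meas hΦc) hΦA hVc hVb hVw χ hχ]
  apply integral_congr_Hyp
  intro p hp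
  have : fM (cut Φ) p = fM Φ p := by
    unfold fM cut
    rw [if_pos (norm_w_le hp)]
  rw [this]

lemma fM_smooth {Φ : ℂ → ℂ} {R : ℝ} (hR : 1 < R) (hΦ : DifferentiableOn ℂ Φ (Metric.ball 0 R)) :
    SmoothNear (Hyp rM) (fM Φ) := fun p hp =>
  (fM_analytic hR hΦ ((norm_w_le hp).trans_lt hR)).contDiffAt

/-- The weak equation. -/
lemma weakBox_u {g : ℕ → ℂ} {Φ : ℂ → ℂ} {R : ℝ} {u : C3 → Fin 3 → ℂ} (hR : 1 < R)
    (hΦ : DifferentiableOn ℂ Φ (Metric.ball 0 R)) (hg : Summable (fun n => ‖g n‖))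
    (hu : ∀ k, MemLp (fun p => u p k) 2 muM)
    (h1 : ∀ χ : C3 → ℂ, SmoothNear (Hyp rM) χ →
      ∫ p, ∑ k, u p k * conj (dbarb rM χ p k) ∂muM =
        ∫ p, (fM Φ p - Fg g p.2.2) * conj (χ p) ∂muM)
    (h2 : ∀ η : C3 → Fin 3 → ℂ, SmoothNear (Hyp rM) η → IsForm rM η →
      (∀ χ : C3 → ℂ, SmoothNear (Hyp rM) χ →
        ∫ p, ∑ k, dbarb rM χ p k * conj (η p k) ∂muM = 0) →
      ∫ p, ∑ k, u p k * conj (η p k) ∂muM = 0) :
    WeakBox rM muM u (dbarb rM (fM Φ)) := by
  intro ψ hψ hψf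
  have hsS := dbarbStar_smooth hψ
  have hs2 := dbarb2_smooth hψ
  have e1 : ∫ p, ∑ k, u p k * conj (boxb rM ψ p k) ∂muM =
      ∫ p, ∑ k, u p k * conj (dbarb rM (dbarbStar rM ψ) p k) ∂muM +
      ∫ p, ∑ k, u p k * conj (dbarb2Star rM (dbarb2 rM ψ) p k) ∂muM := by
    rw [← integral_add (pair_integrable hu (dbarb_smooth hsS))
      (pair_integrable hu (dbarb2Star_smooth hs2))]
    congr 1
    ext p
    rw [← Finset.sum_add_distrib]
    apply Finset.sum_congr rfl
    intro k _
    unfold boxb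
    rw [map_add]; ring
  have e2 : ∫ p, ∑ k, u p k * conj (dbarb2Star rM (dbarb2 rM ψ) p k) ∂muM = 0 := by
    apply h2 _ (dbarb2Star_smooth hs2) (dbarb2Star_isForm _)
    intro χ hχ
    rw [← adj2_gen _ _ (dbarb_smooth hχ) hs2]
    rw [integral_congr_Hyp (g := fun _ => 0) (fun p hp => by rw [dbarb2_dbarb hχ hp]; simp)]
    simp
  have hfS : SmoothNear (Hyp rM) (fM Φ) := fM_smooth hR hΦ
  have e3 : ∫ p, ∑ k, u p k * conj (dbarb rM (dbarbStar rM ψ) p k) ∂muM =
      ∫ p, ∑ k, dbarb rM (fM Φ) p k * conj (ψ p k) ∂muM := by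
    rw [h1 _ hsS, adj1_gen _ _ hfS hψ]
    have hi1 : Integrable (fun p => fM Φ p * conj (dbarbStar rM ψ p)) muM :=
      integrable_of_cont fun p hp => (hfS p hp).continuousAt.mul
        (Complex.continuous_conj.continuousAt.comp (hsS p hp).continuousAt)
    have hi2 : Integrable (fun p => Fg g p.2.2 * conj (dbarbStar rM ψ p)) muM :=
      Fg_comp_bdd hg (integrable_of_cont fun p hp =>
        (Complex.continuous_conj.continuousAt.comp (hsS p hp).continuousAt))
    have : ∫ p, (fM Φ p - Fg g p.2.2) * conj (dbarbStar rM ψ p) ∂muM =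
        ∫ p, fM Φ p * conj (dbarbStar rM ψ p) ∂muM -
        ∫ p, Fg g p.2.2 * conj (dbarbStar rM ψ p) ∂muM := by
      rw [← integral_sub hi1 hi2]
      congr 1; ext p; ring
    rw [this, Fg_orth hg hψ, sub_zero]
  rw [e1, e2, e3, add_zero]

/-- Smooth compactly supported extension of a map which is analytic on an open set. -/
lemma exists_ext_smooth {K W : Set C3} (hK : IsCompact K) (hW : IsOpen W) (hKW : K ⊆ W)
    {E : Type} [NormedAddCommGroup E] [NormedSpace ℝ E] {f : C3 → E}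
    (hf : ∀ p ∈ W, ContDiffAt ℝ ∞ f p) :
    ∃ g : C3 → E, ContDiff ℝ ∞ g ∧ ∀ p ∈ K, g =ᶠ[𝓝 p] f := by
  classical
  obtain ⟨t, ht, hKt, htU⟩ := exists_compact_between hK hW hKW
  obtain ⟨φ, h1, h0, -⟩ := exists_contMDiffMap_one_nhds_of_subset_interior (n := ⊤)
    (modelWithCornersSelf ℝ C3) hK.isClosed hKt
  have hφ : ContDiff ℝ ∞ (fun p => φ p) := by
    have := φ.contMDiff
    exact contMDiff_iff_contDiff.mp this
  refine ⟨fun p => φ p • f p, ?_, ?_⟩
  · rw [contDiff_iff_contDiffAt]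
    intro q
    by_cases hq : q ∈ t
    · exact hφ.contDiffAt.smul (hf q (htU hq))
    · have h3 : (fun p => φ p • f p) =ᶠ[𝓝 q] fun _ => 0 := by
        filter_upwards [ht.isClosed.isOpen_compl.mem_nhds hq] with q' hq'
        rw [h0 q' hq']; simp
      exact contDiffAt_const.congr_of_eventuallyEq h3
  · intro p hp
    have h4 : ∀ᶠ x in 𝓝 p, φ x = 1 := by
      exact eventually_nhdsSet_iff_forall.mp h1 p hp
    filter_upwards [h4] with q hq
    rw [hq]; simp

lemma dbarbStar_congr {ψ φ : C3 → Fin 3 → ℂ} {p : C3} (h : ψ =ᶠ[𝓝 p] φ) :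
    dbarbStar rM ψ p = dbarbStar rM φ p := by
  unfold dbarbStar Lz
  congr 1
  apply Finset.sum_congr rfl
  intro j _
  apply Finset.sum_congr rfl
  intro k _
  have h1 : (fun q => dzb j (rc rM) q * ψ q k / (gsq rM q : ℂ)) =ᶠ[𝓝 p]
      (fun q => dzb j (rc rM) q * φ q k / (gsq rM q : ℂ)) := by
    filter_upwards [h] with q hq
    rw [hq]
  rw [dz_congr h1, dz_congr h1]

/-- circle points are on the hypersurface. -/
lemma circle_mem (θ : ℝ) : ((0, 0, Complex.exp (θ * Complex.I)) : C3) ∈ Hyp rM := by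
  change rM _ = 0
  unfold rM
  simp [Complex.norm_exp_ofReal_mul_I]

/-- Non-analyticity. -/
lemma not_analytic {g : ℕ → ℂ} {Φ : ℂ → ℂ} {R : ℝ} {u : C3 → Fin 3 → ℂ} (hR : 1 < R)
    (hΦ : DifferentiableOn ℂ Φ (Metric.ball 0 R)) (hg : Summable (fun n => ‖g n‖))
    (hnd : ∀ δ > 0, ∀ C : ℝ, ¬ ∀ n : ℕ, ‖g n‖ ≤ C * Real.exp (-δ * n))
    (hu : ∀ k, MemLp (fun p => u p k) 2 muM)
    (h1 : ∀ χ : C3 → ℂ, SmoothNear (Hyp rM) χ →
      ∫ p, ∑ k, u p k * conj (dbarb rM χ p k) ∂muM =
        ∫ p, (fM Φ p - Fg g p.2.2) * conj (χ p) ∂muM) :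
    ¬ IsAnalyticOn rM muM u := by
  intro han
  have key : ∀ θ : ℝ, AnalyticAt ℝ (fun x : ℝ => (1 - Complex.exp (x * Complex.I)) *
      ∑' j, g j * Complex.exp (x * Complex.I) ^ j) θ := by
    intro θ
    set p₀ : C3 := (0, 0, Complex.exp (θ * Complex.I)) with hp₀
    have hp₀M : p₀ ∈ Hyp rM := circle_mem θ
    obtain ⟨G, hG, U, hU, hae⟩ := han p₀ hp₀M
    -- the open set `W`
    let W : Set C3 := interior U ∩ {q | AnalyticAt ℝ G q} ∩ {q | ‖q.2.2‖ < R}
    have hWo : IsOpen W := (isOpen_interior.inter (isOpen_analyticAt ℝ G)).inter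
      (isOpen_lt (by fun_prop) continuous_const)
    have hpW : p₀ ∈ W := by
      refine ⟨⟨mem_interior_iff_mem_nhds.mpr hU, hG⟩, ?_⟩
      change ‖p₀.2.2‖ < R
      exact (norm_w_le hp₀M).trans_lt hR
    let h : C3 → ℂ := fun q => fM Φ q - Fg g q.2.2 - dbarbStar rM G q
    have hfan : ∀ q ∈ W, AnalyticAt ℝ (fM Φ) q := fun q hq => fM_analytic hR hΦ hq.2
    have hGan : ∀ q ∈ W, AnalyticAt ℝ G q := fun q hq => hq.1.2
    have hSan : ∀ q ∈ W ∩ Hyp rM, AnalyticAt ℝ (dbarbStar rM G) q := fun q hq =>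
      dbarbStar_analytic hq.2 (hGan q hq.1)
    have hMc : IsClosed (Hyp rM) := isPscHyp_rM.compact.isClosed
    have hcont : ContinuousOn h (W ∩ Hyp rM) := by
      refine ContinuousOn.sub (ContinuousOn.sub ?_ ?_) ?_
      · exact fun q hq => (hfan q hq.1).continuousAt.continuousWithinAt
      · have hc := Fg_cont hg
        refine hc.comp (by fun_prop) ?_
        intro q hq
        simpa using norm_w_le hq.2
      · exact fun q hq => (hSan q hq).continuousAt.continuousWithinAt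
    -- local integrability
    have hloc : LocallyIntegrableOn h W muM := by
      have hl := hcont.locallyIntegrableOn (μ := muM) (hWo.measurableSet.inter hMc.measurableSet)
      intro q hq
      have hzero : IntegrableOn h (Hyp rM)ᶜ muM := by
        rw [IntegrableOn, Measure.restrict_eq_zero.mpr isVol_muM.supp]
        exact integrable_zero_measure
      by_cases hqM : q ∈ Hyp rM
      · obtain ⟨s, hs, hs2⟩ := hl q ⟨hq, hqM⟩
        refine ⟨s ∪ (Hyp rM)ᶜ, ?_, hs2.union hzero⟩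
        rw [mem_nhdsWithin] at hs ⊢
        obtain ⟨o, ho, hqo, hos⟩ := hs
        refine ⟨o, ho, hqo, fun x hx => ?_⟩
        by_cases hxM : x ∈ Hyp rM
        · exact Or.inl (hos ⟨hx.1, hx.2, hxM⟩)
        · exact Or.inr hxM
      · exact ⟨(Hyp rM)ᶜ, mem_nhdsWithin_of_mem_nhds (hMc.isOpen_compl.mem_nhds hqM), hzero⟩
    -- the test function identity
    have hint : ∀ φ : C3 → ℝ, ContDiff ℝ ∞ φ → HasCompactSupport φ → tsupport φ ⊆ W →
        ∫ q, φ q • h q ∂muM = 0 := by
      intro φ hφ hφc hφW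
      let X : C3 → ℂ := fun q => (φ q : ℂ)
      have hXs : ContDiff ℝ ∞ X := Complex.ofRealCLM.contDiff.comp hφ
      have hXn : SmoothNear (Hyp rM) X := fun q _ => hXs.contDiffAt
      have hXconj : ∀ q, conj (X q) = X q := fun q => Complex.conj_ofReal _
      have hX0 : ∀ q, q ∉ tsupport φ → X =ᶠ[𝓝 q] fun _ => 0 := by
        intro q hq
        filter_upwards [(isClosed_tsupport φ).isOpen_compl.mem_nhds hq] with x hx
        simp only [X]
        rw [image_eq_zero_of_notMem_tsupport hx]; simp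
      have hd0 : ∀ q, q ∉ tsupport φ → ∀ k, dbarb rM X q k = 0 := by
        intro q hq k
        have : ∀ j, dzb j X q = 0 := fun j => by rw [dzb_congr (hX0 q hq), dzb_const]
        unfold dbarb
        simp [this]
      obtain ⟨Gt, hGt, hGte⟩ := exists_ext_smooth (hφc : IsCompact (tsupport φ)) hWo hφW
        (f := G) (fun p hp => (hGan p hp).contDiffAt)
      have hGtn : SmoothNear (Hyp rM) Gt := fun q _ => hGt.contDiffAt
      have a1 := h1 X hXn
      have a2 := adj1_gen X Gt hXn hGtn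
      have a3 : ∫ p, ∑ k, u p k * conj (dbarb rM X p k) ∂muM =
          conj (∫ p, ∑ k, dbarb rM X p k * conj (Gt p k) ∂muM) := by
        rw [← integral_conj]
        apply integral_congr_ae
        filter_upwards [hae] with q hq
        rw [map_sum]
        apply Finset.sum_congr rfl
        intro k _
        rw [map_mul, Complex.conj_conj]
        by_cases hqs : q ∈ tsupport φ
        · rw [hq (interior_subset (hφW hqs).1.1), (hGte q hqs).eq_of_nhds]; ring
        · rw [hd0 q hqs]; simp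
      rw [a3, a2, ← integral_conj] at a1
      have a4 : ∫ q, φ q • h q ∂muM = ∫ p, (fM Φ p - Fg g p.2.2) * conj (X p) ∂muM -
          ∫ p, conj (X p * conj (dbarbStar rM Gt p)) ∂muM := by
        have hi1 : Integrable (fun p => (fM Φ p - Fg g p.2.2) * conj (X p)) muM := by
          have i1 : Integrable (fun p => fM Φ p * conj (X p)) muM :=
            integrable_of_cont fun p hp => (fM_smooth hR hΦ p hp).continuousAt.mul
              (Complex.continuous_conj.continuousAt.comp hXs.continuous.continuousAt)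
          have i2 : Integrable (fun p => Fg g p.2.2 * conj (X p)) muM :=
            Fg_comp_bdd hg (integrable_of_cont fun p hp =>
              (Complex.continuous_conj.continuousAt.comp hXs.continuous.continuousAt))
          refine (i1.sub i2).congr (ae_of_all _ fun p => ?_)
          simp only [Pi.sub_apply]; ring
        have hi2 : Integrable (fun p => conj (X p * conj (dbarbStar rM Gt p))) muM :=
          integrable_of_cont fun p hp => Complex.continuous_conj.continuousAt.comp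
            (hXs.continuous.continuousAt.mul (Complex.continuous_conj.continuousAt.comp
              (dbarbStar_smooth hGtn p hp).continuousAt))
        rw [← integral_sub hi1 hi2]
        apply integral_congr_Hyp
        intro q hq
        simp only [h]
        rw [map_mul, Complex.conj_conj, hXconj, Complex.real_smul]
        by_cases hqs : q ∈ tsupport φ
        · rw [dbarbStar_congr (hGte q hqs)]
          simp only [X]; ring
        · have : X q = 0 := (hX0 q hqs).eq_of_nhds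
          simp only [X] at this ⊢
          rw [this]; ring
      rw [a4, ← a1, sub_self]
    have hzero := hWo.ae_eq_zero_of_integral_contDiff_smul_eq_zero hloc hint
    -- `h` vanishes on the circle near `p₀`
    have hcirc : ∀ x : ℝ, ((0, 0, Complex.exp (x * Complex.I)) : C3) ∈ W →
        h (0, 0, Complex.exp (x * Complex.I)) = 0 := by
      intro x hx
      by_contra hne
      have hxM := circle_mem x
      have hc := hcont _ ⟨hx, hxM⟩
      have hev : ∀ᶠ q in 𝓝[W ∩ Hyp rM] ((0, 0, Complex.exp (x * Complex.I)) : C3), h q ≠ 0 :=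
        hc.eventually_ne hne
      rw [eventually_nhdsWithin_iff] at hev
      have hpos := muM_pos_circle x _ (Filter.inter_mem hev (hWo.mem_nhds hx))
      have hz : muM ({q | q ∈ W ∩ Hyp rM → h q ≠ 0} ∩ W) = 0 := by
        rw [← nonpos_iff_eq_zero]
        have h3 : ∀ᵐ q ∂muM, q ∉ ({q | q ∈ W ∩ Hyp rM → h q ≠ 0} ∩ W) := by
          filter_upwards [hzero, ae_mem_Hyp] with q hq1 hq2 hq3
          exact hq3.1 ⟨hq3.2, hq2⟩ (hq1 hq3.2)
        rw [ae_iff] at h3
        simp only [not_not] at h3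
        exact h3.le
      exact hpos.ne' hz
    -- conclusion
    have hcur : AnalyticAt ℝ (fun x : ℝ => ((0, 0, Complex.exp (x * Complex.I)) : C3)) θ := by
      have he : AnalyticAt ℝ (fun x : ℝ => Complex.exp (x * Complex.I)) θ := by
        have e1 : AnalyticAt ℝ (fun x : ℝ => (x : ℂ) * Complex.I) θ :=
          (Complex.ofRealCLM.analyticAt θ).mul analyticAt_const
        have e2 : AnalyticAt ℝ Complex.exp ((θ : ℂ) * Complex.I) :=
          (analyticAt_cexp : AnalyticAt ℂ Complex.exp ((θ : ℂ) * Complex.I)).restrictScalars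
        exact AnalyticAt.fun_comp e2 e1
      exact analyticAt_const.prod (analyticAt_const.prod he)
    let cur : ℝ → C3 := fun x => (0, 0, Complex.exp (x * Complex.I))
    have hc1 : AnalyticAt ℝ (fM Φ) (cur θ) := hfan p₀ hpW
    have hc2 : AnalyticAt ℝ (dbarbStar rM G) (cur θ) := hSan p₀ ⟨hpW, hp₀M⟩
    have hfin : AnalyticAt ℝ (fun x : ℝ => fM Φ (cur x) - dbarbStar rM G (cur x)) θ :=
      (AnalyticAt.fun_comp hc1 hcur).sub (AnalyticAt.fun_comp hc2 hcur)
    refine hfin.congr ?_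
    have hWev : ∀ᶠ x : ℝ in 𝓝 θ, ((0, 0, Complex.exp (x * Complex.I)) : C3) ∈ W :=
      hcur.continuousAt.eventually_mem (hWo.mem_nhds hpW)
    filter_upwards [hWev] with x hx
    have h5 := hcirc x hx
    simp only [h] at h5
    have h6 : Fg g (Complex.exp (x * Complex.I)) = (1 - Complex.exp (x * Complex.I)) *
        ∑' j, g j * Complex.exp (x * Complex.I) ^ j := by
      unfold Fg
      rw [if_pos (Complex.norm_exp_ofReal_mul_I x).le]
    rw [← h6]
    linear_combination h5
  obtain ⟨δ, hδ, C, hC⟩ := decay_of_boundary_analytic g hg key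
  exact hnd δ hδ C hC

end Pool.Agent.Work.MP_e29078_an
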